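import Pool.Agent.helper29.RPQ.SpecP
import Pool.Agent.helper62.RS.All

set_option autoImplicit false

/-! Row rpq:F1 (MP_07c750_an): the sharp frame bound. -/

open scoped MatrixGroups ContDiff Topology UpperHalfPlane ComplexConjugate
open UpperHalfPlane MeasureTheory Filter Set

namespace Pool.Agent.RPQ

open Pool.Agent.RS
open Pool.Agent.MS (BA BB st pf gk Dk amk)

noncomputable section

theorem F1_cont (R : ℝ) (c : ℍ → ℂ) (hc : Continuous c) : Continuous (pk R c) := by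
  unfold pk
  refine hc.mul (Continuous.cpow (Complex.continuous_ofReal.comp UpperHalfPlane.continuous_im) continuous_const ?_)
  intro z
  exact Complex.ofReal_mem_slitPlane.mpr z.im_pos

/-- the numerical part, `|s - R| ≤ R / 100` -/
theorem F1_num (Ca C R s l x : ℝ) (hR1 : 1 ≤ R) (hsR : |s - R| ≤ R / 100)
    (hl : R ^ (-(1 / 8) : ℝ) ≤ l) (hx0 : 0 ≤ x) (hx1 : x ≤ 1)
    (hxd : x * (1 + (l * (s - R)) ^ 2) ≤ Ca)
    (h1 : 2 * Ca ^ 2 * R ^ (-(3 / 2) : ℝ) ≤ 1) (h2 : 2 * R ^ (-(1 / 2) : ℝ) + C * R ^ (-(1 / 32) : ℝ) ≤ R ^ (-(1 / 40) : ℝ)) (q : ℝ)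
    (hq : |R * q - R / s * x ^ 2| ≤ C * R ^ (-(1 / 32) : ℝ)) : R * q ≤ 1 + R ^ (-(1 / 40) : ℝ) := by
  have hR0 : 0 < R := by linarith
  have hs := abs_le.mp hsR
  have hs0 : 0 < s := by linarith [hs.1]
  have hq' := (abs_le.mp hq).2
  have hh : 0 < R ^ (-(1 / 2) : ℝ) := Real.rpow_pos_of_pos hR0 _
  have hx2 : x ^ 2 ≤ 1 := by nlinarith
  have hRs2 : R / s ≤ 2 := by
    rw [div_le_iff₀ hs0]
    linarith [hs.1]
  have main : R / s * x ^ 2 ≤ 1 + 2 * R ^ (-(1 / 2) : ℝ) := by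
    rcases le_total R s with h | h
    · have : R / s ≤ 1 := (div_le_one hs0).mpr h
      have h0 : 0 ≤ R / s := by positivity
      nlinarith
    · rcases le_total (R - s) (R ^ (1 / 2 : ℝ)) with h' | h'
      · have e1 : R / s ≤ 1 + 2 * R ^ (-(1 / 2) : ℝ) := by
          rw [div_le_iff₀ hs0]
          have e2 : R ^ (-(1 / 2) : ℝ) * R = R ^ (1 / 2 : ℝ) := by
            nth_rewrite 2 [← Real.rpow_one R]
            rw [← Real.rpow_add hR0]
            norm_num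
          have e3 : R ^ (-(1 / 2) : ℝ) * R ≤ R ^ (-(1 / 2) : ℝ) * (2 * s) :=
            mul_le_mul_of_nonneg_left (by linarith [hs.1]) hh.le
          nlinarith
        have h0 : 0 ≤ R / s := by positivity
        calc R / s * x ^ 2 ≤ R / s * 1 := mul_le_mul_of_nonneg_left hx2 h0
          _ ≤ 1 + 2 * R ^ (-(1 / 2) : ℝ) := by linarith
      · -- decay
        have hsq : (R ^ (1 / 2 : ℝ)) ^ 2 = R := by
          rw [← Real.rpow_natCast, ← Real.rpow_mul hR0.le]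
          norm_num
        have hlsq : (R ^ (-(1 / 8) : ℝ)) ^ 2 = R ^ (-(1 / 4) : ℝ) := by
          rw [← Real.rpow_natCast, ← Real.rpow_mul hR0.le]
          norm_num
        have hl0 : 0 < R ^ (-(1 / 8) : ℝ) := Real.rpow_pos_of_pos hR0 _
        have g1 : R ≤ (s - R) ^ 2 := by
          have h3 : 0 ≤ R ^ (1 / 2 : ℝ) := Real.rpow_nonneg hR0.le _
          nlinarith
        have g2 : R ^ (-(1 / 4) : ℝ) ≤ l ^ 2 := by
          rw [← hlsq]
          exact pow_le_pow_left₀ hl0.le hl 2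
        have g3 : R ^ (3 / 4 : ℝ) ≤ (l * (s - R)) ^ 2 := by
          have e3 : R ^ (-(1 / 4) : ℝ) * R = R ^ (3 / 4 : ℝ) := by
            nth_rewrite 2 [← Real.rpow_one R]
            rw [← Real.rpow_add hR0]
            norm_num
          rw [← e3, mul_pow]
          exact mul_le_mul g2 g1 hR0.le (by positivity)
        have h34 : 0 < R ^ (3 / 4 : ℝ) := Real.rpow_pos_of_pos hR0 _
        have g4 : x * R ^ (3 / 4 : ℝ) ≤ Ca := by
          calc x * R ^ (3 / 4 : ℝ) ≤ x * (1 + (l * (s - R)) ^ 2) := mul_le_mul_of_nonneg_left (by linarith) hx0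
            _ ≤ Ca := hxd
        have g5 : x ^ 2 ≤ Ca ^ 2 * R ^ (-(3 / 2) : ℝ) := by
          have e4 : (R ^ (3 / 4 : ℝ)) ^ 2 * R ^ (-(3 / 2) : ℝ) = 1 := by
            rw [← Real.rpow_natCast, ← Real.rpow_mul hR0.le, ← Real.rpow_add hR0]
            norm_num
          have e5 : (x * R ^ (3 / 4 : ℝ)) ^ 2 ≤ Ca ^ 2 := pow_le_pow_left₀ (by positivity) g4 2
          calc x ^ 2 = (x * R ^ (3 / 4 : ℝ)) ^ 2 * R ^ (-(3 / 2) : ℝ) := by
                rw [mul_pow, mul_assoc, e4, mul_one]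
            _ ≤ Ca ^ 2 * R ^ (-(3 / 2) : ℝ) := mul_le_mul_of_nonneg_right e5 (Real.rpow_nonneg hR0.le _)
        have h0 : 0 ≤ R / s := by positivity
        calc R / s * x ^ 2 ≤ 2 * (Ca ^ 2 * R ^ (-(3 / 2) : ℝ)) := mul_le_mul hRs2 g5 (by positivity) (by norm_num)
          _ ≤ 1 := by linarith
          _ ≤ 1 + 2 * R ^ (-(1 / 2) : ℝ) := by linarith
  linarith

theorem F1_main (hNR5 : NR5_stmt) (hGR2 : GR2_stmt) (hFL0 : FL0_stmt) (hBU3 : BU3_stmt) (hHFB : HFB_stmt) (hEFU : EFU_stmt)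
    (hCWB : CWB_stmt) : F1_stmt := by
  intro α β hα hβ
  obtain ⟨C3, R3, hC3, hR3, h3⟩ := hBU3 α β hα hβ
  obtain ⟨CE, hCE, hE⟩ := hEFU α β hα hβ
  obtain ⟨Ca, hCa, hFa⟩ := hHFB.2.2.1 α hα.1
  have hF1 := hHFB.2.2.2 α hα
  obtain ⟨R4, hR4⟩ := Filter.eventually_atTop.mp
    ((tendsto_rpow_atTop (show (0 : ℝ) < 1 / 160 by norm_num)).eventually_ge_atTop (2 + C3))
  refine ⟨max (max 1 R3) (max (max R4 CE) (2 * Ca ^ 2)), (le_max_left _ _).trans (le_max_left _ _), ?_⟩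
  intro Γ F R w l hΓ hF hR hw hw' hl hl1 u hu
  simp only [max_le_iff] at hR
  obtain ⟨⟨hR1, hRR3⟩, ⟨hRR4, hRCE⟩, hRCa⟩ := hR
  have hR0 : 0 < R := by linarith
  have hw0 : 0 < w := lt_of_lt_of_le (Real.rpow_pos_of_pos hR0 _) hw
  have hl0 : 0 < l := lt_of_lt_of_le (Real.rpow_pos_of_pos hR0 _) hl
  have hw1 : w ≤ 1 := hw'.trans (by
    unfold w0
    exact Real.rpow_le_one_of_one_le_of_nonpos hR1 (by norm_num))
  obtain ⟨-, -, -, -, -, -, hTB, -⟩ := hCWB α β w l hα hβ hw0 hw1 hl0 hl1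
  obtain ⟨-, -, -, -, -, -, hcont⟩ := hFL0.1 (1 / 4) _ hTB
  have hT := hFL0.2.1 (1 / 4) R _ hTB
  obtain ⟨q, hq0, hqu, hqv⟩ := hNR5 Γ F (pk R (cw β α w l)) hΓ hF (F1_cont R _ hcont) hT.2
  have hnn : 0 ≤ nn F u := by
    unfold nn
    exact MeasureTheory.integral_nonneg fun z => by positivity
  have hmain : R * q ≤ 1 + R ^ (-(1 / 40) : ℝ) := by
    have h40 : 0 ≤ R ^ (-(1 / 40) : ℝ) := Real.rpow_nonneg hR0.le _
    rcases hqv with h | ⟨lam, v, hv, hv0, hvq⟩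
    · rw [h, mul_zero]
      linarith
    have hvq' : qn F (cw β α w l) R v = q * nn F v := hvq
    by_cases hs : ∃ s : ℝ, 0 ≤ s ∧ lam = 1 / 4 + s ^ 2 ∧ |s - R| ≤ R / 100
    · obtain ⟨s, hs0, hlam, hsR⟩ := hs
      rw [hlam] at hv
      have g1 := (hGR2 Γ F hΓ hF s v (by exact_mod_cast hv)).2 (cw β α w l) R hTB
      have g2 : q = bk (cc (cw β α w l)) R s := by
        rw [hvq', mul_comm] at g1
        exact mul_left_cancel₀ hv0.ne' g1
      have g3 := h3 R s w l hRR3 hsR hw hw' hl hl1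
      rw [← g2, hHFB.1 α l (s - R) hl0] at g3
      have g4 := hF1 (l * (s - R))
      have g5 := hFa (l * (s - R))
      refine F1_num Ca C3 R s l _ hR1 hsR hl (norm_nonneg _) g4.1 g5 ?_ ?_ q g3
      · have e1 : R ^ (-(3 / 2) : ℝ) ≤ R⁻¹ := by
          rw [← Real.rpow_neg_one]
          exact Real.rpow_le_rpow_of_exponent_le hR1 (by norm_num)
        calc 2 * Ca ^ 2 * R ^ (-(3 / 2) : ℝ) ≤ R * R⁻¹ := mul_le_mul hRCa e1 (Real.rpow_nonneg hR0.le _) hR0.le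
          _ = 1 := mul_inv_cancel₀ hR0.ne'
      · have e1 : R ^ (-(1 / 2) : ℝ) ≤ R ^ (-(1 / 32) : ℝ) := Real.rpow_le_rpow_of_exponent_le hR1 (by norm_num)
        have e2 := hR4 R hRR4
        have e3 : R ^ (1 / 160 : ℝ) * R ^ (-(1 / 32) : ℝ) = R ^ (-(1 / 40) : ℝ) := by
          rw [← Real.rpow_add hR0]
          norm_num
        have e4 : 0 < R ^ (-(1 / 32) : ℝ) := Real.rpow_pos_of_pos hR0 _
        calc 2 * R ^ (-(1 / 2) : ℝ) + C3 * R ^ (-(1 / 32) : ℝ) ≤ (2 + C3) * R ^ (-(1 / 32) : ℝ) := by nlinarith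
          _ ≤ R ^ (1 / 160 : ℝ) * R ^ (-(1 / 32) : ℝ) := mul_le_mul_of_nonneg_right e2 e4.le
          _ = R ^ (-(1 / 40) : ℝ) := e3
    · have g1 := hE Γ F R w l lam v hΓ hF hR1 hw hw' hl hl1 hv (by
        intro s hs0 hlam
        by_contra hcon
        exact hs ⟨s, hs0, hlam, not_lt.mp hcon⟩)
      rw [hvq'] at g1
      have g2 : q ≤ CE * R ^ (-2 : ℝ) := le_of_mul_le_mul_right g1 hv0
      have e1 : R * (CE * R ^ (-2 : ℝ)) ≤ 1 := by
        have e2 : R ^ (-2 : ℝ) = R⁻¹ * R⁻¹ := by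
          rw [show (-2 : ℝ) = -1 + -1 by norm_num, Real.rpow_add hR0, Real.rpow_neg_one]
        rw [e2]
        have e3 : R * (CE * (R⁻¹ * R⁻¹)) = CE * R⁻¹ := by
          field_simp
        rw [e3, ← div_eq_mul_inv]
        exact (div_le_one hR0).mpr hRCE
      have e4 : R * q ≤ R * (CE * R ^ (-2 : ℝ)) := mul_le_mul_of_nonneg_left g2 hR0.le
      linarith
  calc R * qn F (cw β α w l) R u ≤ R * (q * nn F u) := mul_le_mul_of_nonneg_left (hqu u hu) hR0.le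
    _ = R * q * nn F u := by ring
    _ ≤ (1 + R ^ (-(1 / 40) : ℝ)) * nn F u := mul_le_mul_of_nonneg_right hmain hnn

theorem F1_proof (hBU3 : BU3_stmt) (hHFB : HFB_stmt) (hEFU : EFU_stmt) (hCWB : CWB_stmt) : F1_stmt :=
  F1_main A_NR5 A_GR2 A_FL0 hBU3 hHFB hEFU hCWB

end

end Pool.Agent.RPQ
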