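import Pool.Agent.helper29.RPQ.SpecP
import Pool.Agent.helper88.RS.FL0

set_option autoImplicit false

/-! Row rpq:GFB (MP_07c750_an): the frame bound of a packet from Schur's test. -/

open scoped MatrixGroups ContDiff Topology UpperHalfPlane ComplexConjugate
open UpperHalfPlane MeasureTheory Filter Set

namespace Pool.Agent.RPQ

open Pool.Agent.RS
open Pool.Agent.MS (BA BB st pf gk Dk amk)

noncomputable section

theorem GFB_cont (R : ℝ) (c : ℍ → ℂ) (hc : Continuous c) : Continuous (pk R c) := by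
  unfold pk
  refine hc.mul (Continuous.cpow (Complex.continuous_ofReal.comp UpperHalfPlane.continuous_im) continuous_const ?_)
  intro z
  exact Complex.ofReal_mem_slitPlane.mpr z.im_pos

theorem GFB_proof (hSCF : SCF_stmt) (hGKI : GKI_stmt) (hACM : ACM_stmt) : GFB_stmt := by
  obtain ⟨C, hC, hG⟩ := hGKI
  refine ⟨C, hC, fun Γ F R w l A c hΓ hF hR hw hwl hl hA hc u hu => ?_⟩
  have hw0 : 0 < w := lt_of_lt_of_le (Real.rpow_pos_of_pos (by linarith) _) hw
  have hTB : TB (1 / 4) c := hACM.2.2 8 A (1 / w) w l c (hwl.trans hl) hl hc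
  obtain ⟨-, -, -, -, -, -, hcont⟩ := FL0.1 (1 / 4) c hTB
  have hT := FL0.2.1 (1 / 4) R c hTB
  have hR0 : 0 < R := by linarith
  exact hSCF Γ F (pk R c) (C * (A ^ 2 * w * l ^ 2 / R)) hΓ hF (GFB_cont R c hcont) hT.2 (by positivity)
    (hG R w l A c hR hw hwl hl hA hc) u hu

end

end Pool.Agent.RPQ
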