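import Pool.Agent.helper29.RPQ.SpecP

set_option autoImplicit false

/-! Row rpq:UKB (MP_07c750_an): the step kernel and its truncation. -/

open scoped MatrixGroups ContDiff Topology UpperHalfPlane ComplexConjugate
open UpperHalfPlane MeasureTheory Filter Set

namespace Pool.Agent.RPQ

open Pool.Agent.RS
open Pool.Agent.MS (BA BB st pf gk Dk amk)

noncomputable section

theorem UKB_main (α β : ℝ → ℝ) (hα : BA (1 / 8) α) (hβ : BB (1 / 8) β) (hOVD : OVD_stmt) (hACC : ACC_stmt) (hACM : ACM_stmt)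
    (η : ℝ) (hη : 0 < η) (hη' : η ≤ 1 / 20) (k : ℕ) : ∃ C1 : ℝ, 0 < C1 ∧ ∀ R : ℝ, 256 ≤ R → R ^ (-η) ≤ 1 / 4 →
    ∀ b : SL(2, ℝ), ‖uk β α η R b‖ ≤ C1 * R ^ (15 / 16 + η) / (1 + R ^ (5 / 8 : ℝ) * |b.1 1 0|) ^ k := by
  obtain ⟨Ca, hCa, hA⟩ := hACC k α β hα hβ
  obtain ⟨Co, hCo, hO⟩ := hOVD k
  refine ⟨Co * Ca ^ 2, by positivity, fun R hR hl b => ?_⟩
  have hR1 : 1 ≤ R := by linarith
  have hR0 : 0 < R := by linarith
  have hw1 : 0 < w1 R := Real.rpow_pos_of_pos hR0 _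
  have hw0 : 0 < w0 R := Real.rpow_pos_of_pos hR0 _
  have hl0 : 0 < R ^ (-η) := Real.rpow_pos_of_pos hR0 _
  have h256 : (256 : ℝ) ^ (-(1 / 4) : ℝ) = 1 / 4 := by
    rw [show (256 : ℝ) = 4 ^ (4 : ℝ) by norm_num, ← Real.rpow_mul (by norm_num)]
    norm_num [Real.rpow_neg_one]
  have hw04 : w0 R ≤ 1 / 4 := by
    rw [← h256]
    unfold w0
    exact Real.rpow_le_rpow_of_nonpos (by norm_num) hR (by norm_num)
  have hw10 : w1 R ≤ w0 R := Real.rpow_le_rpow_of_exponent_le hR1 (by norm_num)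
  have hw0l : w0 R ≤ R ^ (-η) := Real.rpow_le_rpow_of_exponent_le hR1 (by linarith)
  have hl1 : R ^ (-η) ≤ 1 := by linarith
  have a1 := (hA (w1 R) (R ^ (-η)) hw1 (hw10.trans hw0l) hl1).1
  have a0 := (hA (w0 R) (R ^ (-η)) hw0 hw0l hl1).1
  have hm : 1 / w0 R ≤ 1 / w1 R := one_div_le_one_div_of_le hw1 hw10
  have hA0 : 0 ≤ Ca * ((w0 R) ^ (-(1 / 2) : ℝ) / R ^ (-η)) := by
    have := Real.rpow_nonneg hw0.le (-(1 / 2) : ℝ)
    positivity
  have hA1 : 0 ≤ Ca * ((w1 R) ^ (-(1 / 2) : ℝ) / R ^ (-η)) := by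
    have := Real.rpow_nonneg hw1.le (-(1 / 2) : ℝ)
    positivity
  have a0' := hACM.2.1 k k _ _ (1 / w0 R) (1 / w1 R) (w0 R) (w0 R) (R ^ (-η)) (R ^ (-η)) (cw β α (w0 R) (R ^ (-η)))
    le_rfl le_rfl hA0 (by positivity) hm le_rfl le_rfl a0
  have hm1 : 1 ≤ 1 / w1 R := by
    rw [le_div_iff₀ hw1]
    linarith
  have key := hO R _ _ (1 / w1 R) (w1 R) (w0 R) (R ^ (-η)) (cw β α (w1 R) (R ^ (-η))) (cw β α (w0 R) (R ^ (-η))) b hR1
    hA1 hA0 hm1 hw1 (hw10.trans hw04) hw04 hl0 hl a1 a0'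
  have e1 : (w1 R) ^ (-(1 / 2) : ℝ) = R ^ (3 / 16 : ℝ) := by
    unfold w1
    rw [← Real.rpow_mul hR0.le]
    norm_num
  have e0 : (w0 R) ^ (-(1 / 2) : ℝ) = R ^ (1 / 8 : ℝ) := by
    unfold w0
    rw [← Real.rpow_mul hR0.le]
    norm_num
  have e2 : Ca * ((w1 R) ^ (-(1 / 2) : ℝ) / R ^ (-η)) * (Ca * ((w0 R) ^ (-(1 / 2) : ℝ) / R ^ (-η))) * w1 R * R ^ (-η) =
      Ca ^ 2 * R ^ (-(1 / 16) + η) := by
    rw [e1, e0]
    have e3 : R ^ (3 / 16 : ℝ) * R ^ (1 / 8 : ℝ) * w1 R = R ^ (-(1 / 16) : ℝ) := by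
      unfold w1
      rw [← Real.rpow_add hR0, ← Real.rpow_add hR0]
      norm_num
    have e4 : R ^ (-(1 / 16) + η) = R ^ (-(1 / 16) : ℝ) / R ^ (-η) := by
      rw [← Real.rpow_sub hR0]
      congr 1
      ring
    rw [e4, ← e3]
    field_simp
  have e5 : R * |b.1 1 0| / (1 / w1 R) = R ^ (5 / 8 : ℝ) * |b.1 1 0| := by
    have e6 : R * w1 R = R ^ (5 / 8 : ℝ) := by
      unfold w1
      nth_rewrite 1 [← Real.rpow_one R]
      rw [← Real.rpow_add hR0]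
      norm_num
    rw [← e6]
    field_simp
  rw [e2, e5] at key
  have e7 : ‖uk β α η R b‖ = R * ‖gk R (cw β α (w1 R) (R ^ (-η))) (cw β α (w0 R) (R ^ (-η))) b‖ := by
    unfold uk
    rw [norm_mul, norm_mul, Complex.norm_exp_ofReal_mul_I, mul_one, Complex.norm_real, Real.norm_of_nonneg hR0.le]
  rw [e7]
  have e8 : R * R ^ (-(1 / 16) + η) = R ^ (15 / 16 + η) := by
    nth_rewrite 1 [← Real.rpow_one R]
    rw [← Real.rpow_add hR0]
    congr 1
    ring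
  calc R * ‖gk R (cw β α (w1 R) (R ^ (-η))) (cw β α (w0 R) (R ^ (-η))) b‖
      ≤ R * (Co * (Ca ^ 2 * R ^ (-(1 / 16) + η)) / (1 + R ^ (5 / 8 : ℝ) * |b.1 1 0|) ^ k) :=
        mul_le_mul_of_nonneg_left key hR0.le
    _ = Co * Ca ^ 2 * (R * R ^ (-(1 / 16) + η)) / (1 + R ^ (5 / 8 : ℝ) * |b.1 1 0|) ^ k := by ring
    _ = Co * Ca ^ 2 * R ^ (15 / 16 + η) / (1 + R ^ (5 / 8 : ℝ) * |b.1 1 0|) ^ k := by rw [e8]

theorem UKB_proof (hOVD : OVD_stmt) (hOVS : OVS_stmt) (hACC : ACC_stmt) (hACM : ACM_stmt) : UKB_stmt := by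
  intro α β hα hβ η ε hη hη' hε hε'
  obtain ⟨k, hk⟩ : ∃ k : ℕ, 10 ≤ ε * k := by
    obtain ⟨k, hk⟩ := exists_nat_ge (10 / ε)
    refine ⟨k, ?_⟩
    rw [div_le_iff₀ hε] at hk
    linarith
  obtain ⟨C1, hC1, hM⟩ := UKB_main α β hα hβ hOVD hACC hACM η hη hη' k
  obtain ⟨Ca, hCa, hA⟩ := hACC 0 α β hα hβ
  refine ⟨max 36 C1, max (max 256 C1) ((4 : ℝ) ^ (1 / η)), le_trans (by norm_num) (le_max_left _ _),
    le_trans (by norm_num) ((le_max_left _ _).trans (le_max_left _ _)), fun C R hC hR b => ?_⟩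
  have hC36 : 36 ≤ C := (le_max_left _ _).trans hC
  have hCC1 : C1 ≤ C := (le_max_right _ _).trans hC
  have hR256 : 256 ≤ R := ((le_max_left _ _).trans (le_max_left _ _)).trans hR
  have hRC1 : C1 ≤ R := ((le_max_right _ _).trans (le_max_left _ _)).trans hR
  have hR4 : (4 : ℝ) ^ (1 / η) ≤ R := (le_max_right _ _).trans hR
  have hR1 : 1 ≤ R := by linarith
  have hR0 : 0 < R := by linarith
  have hl : R ^ (-η) ≤ 1 / 4 := by
    have h1 : ((4 : ℝ) ^ (1 / η)) ^ (-η) = 1 / 4 := by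
      rw [← Real.rpow_mul (by norm_num)]
      have : 1 / η * -η = -1 := by
        field_simp
      rw [this, Real.rpow_neg_one]
      norm_num
    rw [← h1]
    exact Real.rpow_le_rpow_of_nonpos (by positivity) hR4 (by linarith)
  have hw1 : 0 < w1 R := Real.rpow_pos_of_pos hR0 _
  have hw0 : 0 < w0 R := Real.rpow_pos_of_pos hR0 _
  have h256 : (256 : ℝ) ^ (-(1 / 4) : ℝ) = 1 / 4 := by
    rw [show (256 : ℝ) = 4 ^ (4 : ℝ) by norm_num, ← Real.rpow_mul (by norm_num)]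
    norm_num [Real.rpow_neg_one]
  have hw04 : w0 R ≤ 1 / 4 := by
    rw [← h256]
    unfold w0
    exact Real.rpow_le_rpow_of_nonpos (by norm_num) hR256 (by norm_num)
  have hw10 : w1 R ≤ w0 R := Real.rpow_le_rpow_of_exponent_le hR1 (by norm_num)
  have hw0l : w0 R ≤ R ^ (-η) := Real.rpow_le_rpow_of_exponent_le hR1 (by linarith)
  have hl1 : R ^ (-η) ≤ 1 := by linarith
  have a1 := (hA (w1 R) (R ^ (-η)) hw1 (hw10.trans hw0l) hl1).1
  have a0 := (hA (w0 R) (R ^ (-η)) hw0 hw0l hl1).1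
  have hne : uk β α η R b ≠ 0 → (∀ i j, |b.1 i j| ≤ 3) ∧ |b.1 0 1| ≤ 12 * (w1 R + w0 R + |b.1 1 0|) ∧
      |b.1 0 0 - b.1 1 1| ≤ 12 * (R ^ (-η) + |b.1 1 0|) := by
    intro h
    refine hOVS R (w1 R) (w0 R) (R ^ (-η)) (cw β α (w1 R) (R ^ (-η))) (cw β α (w0 R) (R ^ (-η))) b (hw10.trans hw04) hw04 hl
      a1.supp a0.supp ?_
    intro h0
    apply h
    unfold uk
    rw [h0, mul_zero]
  have hb := hM R hR256 hl b
  have hb0 : ‖uk β α η R b‖ ≤ C1 * R ^ (15 / 16 + η) := by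
    refine hb.trans (div_le_self (by positivity) (one_le_pow₀ ?_))
    have : 0 ≤ R ^ (5 / 8 : ℝ) * |b.1 1 0| := by positivity
    linarith
  have hX : 0 < R ^ (15 / 16 + η) := Real.rpow_pos_of_pos hR0 _
  refine ⟨?_, ?_, fun h => (hne h).1⟩
  · by_cases hin : b ∈ Bx C η ε R
    · unfold ut
      rw [Set.indicator_of_mem hin, sub_self, norm_zero]
      exact Real.rpow_nonneg hR0.le _
    · unfold ut
      rw [Set.indicator_of_notMem hin, sub_zero]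
      by_cases h0 : uk β α η R b = 0
      · rw [h0, norm_zero]
        exact Real.rpow_nonneg hR0.le _
      · obtain ⟨h3, h01, h001⟩ := hne h0
        have hbig : R ^ (-(5 / 8) + ε) < |b.1 1 0| := by
          by_contra hcon
          have hcon' := not_lt.mp hcon
          apply hin
          refine ⟨h3, hcon', ?_, ?_⟩
          · have g1 : R ^ (-(5 / 8) + ε) ≤ R ^ (-(1 / 4) : ℝ) := Real.rpow_le_rpow_of_exponent_le hR1 (by linarith)
            have g2 : w0 R = R ^ (-(1 / 4) : ℝ) := rfl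
            have g3 : 0 < R ^ (-(1 / 4) : ℝ) := Real.rpow_pos_of_pos hR0 _
            nlinarith
          · have g1 : R ^ (-(5 / 8) + ε) ≤ R ^ (-η) := Real.rpow_le_rpow_of_exponent_le hR1 (by linarith)
            have g3 : 0 < R ^ (-η) := Real.rpow_pos_of_pos hR0 _
            nlinarith
        have hpow : R ^ (10 : ℝ) ≤ (1 + R ^ (5 / 8 : ℝ) * |b.1 1 0|) ^ k := by
          have g1 : R ^ ε ≤ 1 + R ^ (5 / 8 : ℝ) * |b.1 1 0| := by
            have g2 : R ^ (5 / 8 : ℝ) * R ^ (-(5 / 8) + ε) = R ^ ε := by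
              rw [← Real.rpow_add hR0]
              congr 1
              ring
            have g3 : R ^ (5 / 8 : ℝ) * R ^ (-(5 / 8) + ε) ≤ R ^ (5 / 8 : ℝ) * |b.1 1 0| :=
              mul_le_mul_of_nonneg_left hbig.le (Real.rpow_nonneg hR0.le _)
            linarith
          calc R ^ (10 : ℝ) ≤ R ^ (ε * k) := Real.rpow_le_rpow_of_exponent_le hR1 hk
            _ = (R ^ ε) ^ k := by rw [Real.rpow_mul hR0.le, Real.rpow_natCast]
            _ ≤ (1 + R ^ (5 / 8 : ℝ) * |b.1 1 0|) ^ k := pow_le_pow_left₀ (Real.rpow_nonneg hR0.le _) g1 k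
        have h10 : 0 < R ^ (10 : ℝ) := Real.rpow_pos_of_pos hR0 _
        calc ‖uk β α η R b‖ ≤ C1 * R ^ (15 / 16 + η) / (1 + R ^ (5 / 8 : ℝ) * |b.1 1 0|) ^ k := hb
          _ ≤ C1 * R ^ (15 / 16 + η) / R ^ (10 : ℝ) := div_le_div_of_nonneg_left (by positivity) h10 hpow
          _ ≤ R ^ (1 : ℝ) * R ^ (15 / 16 + η) / R ^ (10 : ℝ) := by
              rw [Real.rpow_one]
              gcongr
          _ = R ^ (1 + (15 / 16 + η) - 10) := by
              rw [← Real.rpow_add hR0, ← Real.rpow_sub hR0]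
          _ ≤ R ^ (-2 : ℝ) := Real.rpow_le_rpow_of_exponent_le hR1 (by linarith)
  · have h1 : ‖ut β α C η ε R b‖ ≤ ‖uk β α η R b‖ := by
      unfold ut
      exact norm_indicator_le_norm_self _ _
    refine h1.trans (hb0.trans ?_)
    exact mul_le_mul_of_nonneg_right hCC1 hX.le

end

end Pool.Agent.RPQ
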